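import Pool.Agent.Lib.MP_0b126a_co.Limit

namespace Pool.Agent.Results.MP_0b126a_co.AsymptoticHalfSquare

open Filter Topology Pool.Agent.Lib.MP_0b126a_co

/-- `Sums S` is the set `Σ(S)` of the sums of the nonempty subsets of `S`. -/
def Sums {G : Type} [AddCommGroup G] (S : Finset G) : Set G :=
  {g | ∃ I : Finset G, I ⊆ S ∧ I.Nonempty ∧ ∑ x ∈ I, x = g}

/-- `S` is zero-sum-free if `0` is not the sum of a nonempty subset of `S`. -/
def ZeroSumFree {G : Type} [AddCommGroup G] (S : Finset G) : Prop := (0 : G) ∉ Sums S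

/-- The numbers `|Σ(S)|`, where `S` runs over the zero-sum-free `k`-element subsets of the finite
abelian groups. -/
def values (k : ℕ) : Set ℕ :=
  {n | ∃ (G : Type) (_ : AddCommGroup G) (_ : Finite G) (S : Finset G),
    S.card = k ∧ ZeroSumFree S ∧ (Sums S).ncard = n}

/-- `f k` is the minimum of `|Σ(S)|` over the zero-sum-free `k`-element subsets `S` of the finite
abelian groups. -/
noncomputable def f (k : ℕ) : ℕ := sInf (values k)

lemma zsf_of {G : Type} [AddCommGroup G] {S : Finset G} (h : ZeroSumFree S) : ZSF S := by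
  intro B hB hne hs
  exact h ⟨B, hB, hne, hs⟩

lemma SS_eq {G : Type} [AddCommGroup G] (S : Finset G) : (SS S : Set G) = insert 0 (Sums S) := by
  ext g
  rw [Finset.mem_coe, mem_SS, Set.mem_insert_iff]
  constructor
  · rintro ⟨B, hB, rfl⟩
    rcases B.eq_empty_or_nonempty with rfl | hne
    · left; simp
    · right
      exact ⟨B, hB, hne, rfl⟩
  · rintro (rfl | ⟨B, hB, _, rfl⟩)
    · exact ⟨∅, Finset.empty_subset _, by simp⟩
    · exact ⟨B, hB, rfl⟩

lemma card_SS {G : Type} [AddCommGroup G] [Finite G] {S : Finset G} (h : ZeroSumFree S) :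
    (SS S).card = (Sums S).ncard + 1 := by
  have h1 : ((SS S : Set G)).ncard = (SS S).card := Set.ncard_coe_finset _
  rw [← h1, SS_eq, Set.ncard_insert_of_notMem h (Set.toFinite _)]

/-- the standard example -/
lemma example_mem (k : ℕ) : ∃ n ∈ values k, 2 * n ≤ k * (k + 1) := by
  classical
  set m := k * (k + 1) / 2 + 1 with hm
  have h2 : 2 * (k * (k + 1) / 2) = k * (k + 1) := by
    have : 2 ∣ k * (k + 1) := (Nat.even_mul_succ_self k).two_dvd
    omega
  have hmpos : NeZero m := ⟨by omega⟩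
  have hkm : k < m := by
    rcases Nat.eq_zero_or_pos k with rfl | hk
    · simp [hm]
    · nlinarith
  let S : Finset (ZMod m) := (Finset.Icc 1 k).image (fun j : ℕ => (j : ZMod m))
  have hinj : Set.InjOn (fun j : ℕ => (j : ZMod m)) (Finset.Icc 1 k : Finset ℕ) := by
    intro i hi j hj hij
    simp only [Finset.coe_Icc, Set.mem_Icc] at hi hj
    have h1 := (ZMod.natCast_eq_natCast_iff' i j m).1 hij
    rwa [Nat.mod_eq_of_lt (by omega), Nat.mod_eq_of_lt (by omega)] at h1
  have hcard : S.card = k := by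
    rw [Finset.card_image_of_injOn hinj]; simp
  have hz : ZeroSumFree S := by
    rintro ⟨I, hI, hne, hs⟩
    set J := (Finset.Icc 1 k).filter (fun j : ℕ => (j : ZMod m) ∈ I) with hJ
    have hJI : J.image (fun j : ℕ => (j : ZMod m)) = I := by
      ext x
      simp only [hJ, Finset.mem_image, Finset.mem_filter]
      constructor
      · rintro ⟨j, ⟨_, hj⟩, rfl⟩
        exact hj
      · intro hx
        obtain ⟨j, hj, rfl⟩ := Finset.mem_image.1 (hI hx)
        exact ⟨j, ⟨hj, hx⟩, rfl⟩
    have hJsub : J ⊆ Finset.Icc 1 k := Finset.filter_subset _ _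
    have hs' : ((∑ j ∈ J, j : ℕ) : ZMod m) = 0 := by
      rw [← hs, ← hJI, Finset.sum_image (fun i hi j hj h => hinj (hJsub hi) (hJsub hj) h)]
      push_cast
      rfl
    have hle : ∑ j ∈ J, j ≤ k * (k + 1) / 2 := by
      calc ∑ j ∈ J, j ≤ ∑ j ∈ Finset.Icc 1 k, j :=
            Finset.sum_le_sum_of_subset hJsub
        _ ≤ ∑ j ∈ Finset.range (k + 1), j := by
            apply Finset.sum_le_sum_of_subset
            intro j hj
            rw [Finset.mem_Icc] at hj
            rw [Finset.mem_range]; omega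
        _ = k * (k + 1) / 2 := by
            rw [Finset.sum_range_id]
            congr 1
            rw [Nat.add_sub_cancel, mul_comm]
    have hJne : J.Nonempty := by
      rw [← Finset.image_nonempty (f := fun j : ℕ => (j : ZMod m)), hJI]
      exact hne
    obtain ⟨j, hj⟩ := hJne
    have hpos : 0 < ∑ j ∈ J, j := by
      have h3 : j ≤ ∑ j ∈ J, j := Finset.single_le_sum (f := fun j => j) (fun _ _ => Nat.zero_le _) hj
      have h4 := Finset.mem_Icc.1 (hJsub hj)
      omega
    rw [ZMod.natCast_eq_zero_iff] at hs'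
    have := Nat.le_of_dvd hpos hs'
    omega
  refine ⟨(Sums S).ncard, ⟨ZMod m, inferInstance, inferInstance, S, hcard, hz, rfl⟩, ?_⟩
  have h1 := card_SS hz
  have h3 : (SS S).card ≤ m := by
    have := Finset.card_le_univ (SS S)
    rwa [ZMod.card] at this
  omega

lemma isLeast_f (k : ℕ) : IsLeast (values k) (f k) := by
  obtain ⟨n, hn, _⟩ := example_mem k
  exact ⟨Nat.sInf_mem ⟨n, hn⟩, fun m hm => Nat.sInf_le hm⟩

lemma f_upper (k : ℕ) : (f k : ℝ) ≤ (k : ℝ) ^ 2 / 2 + k / 2 := by
  obtain ⟨n, hn, h⟩ := example_mem k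
  have h1 := (isLeast_f k).2 hn
  have h2 : ((2 * f k : ℕ) : ℝ) ≤ ((k * (k + 1) : ℕ) : ℝ) := by
    have : 2 * f k ≤ k * (k + 1) := by omega
    exact_mod_cast this
  push_cast at h2
  linarith

lemma f_lower {γ : ℝ} (hγ : γ < 1 / 2) :
    ∀ᶠ k : ℕ in atTop, γ * (k : ℝ) ^ 2 ≤ (f k : ℝ) + 1 := by
  obtain ⟨K, hK⟩ := propA_all hγ
  filter_upwards [eventually_ge_atTop K] with k hk
  obtain ⟨G, i1, i2, S, hc, hz, hn⟩ := (isLeast_f k).1
  have : Fintype G := Fintype.ofFinite G
  have h1 := hK G S (zsf_of hz) (by omega)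
  rw [hc, card_SS hz, hn] at h1
  exact_mod_cast h1

/-- `f(k)` is asymptotically equal to `k² / 2`. -/
theorem result : (∀ k, IsLeast (values k) (f k)) ∧
    Tendsto (fun k : ℕ => (f k : ℝ) / ((k : ℝ) ^ 2 / 2)) atTop (𝓝 1) := by
  refine ⟨isLeast_f, tendsto_order.2 ⟨fun b hb => ?_, fun b hb => ?_⟩⟩
  · -- lower bound
    obtain ⟨c, hc1, hc2⟩ := exists_between hb
    have h1 := f_lower (γ := c / 2) (by linarith)
    have h2 := ev_lin (c := 3) (d := c - b) (by linarith)
    filter_upwards [h1, h2, eventually_gt_atTop 0] with k e1 e2 e3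
    have hk : (1 : ℝ) ≤ k := by exact_mod_cast e3
    rw [lt_div_iff₀ (by positivity)]
    nlinarith
  · have h2 := ev_lin (c := 2) (d := b - 1) (by linarith)
    filter_upwards [h2, eventually_gt_atTop 0] with k e2 e3
    have hk : (1 : ℝ) ≤ k := by exact_mod_cast e3
    have h3 := f_upper k
    rw [div_lt_iff₀ (by positivity)]
    nlinarith

end Pool.Agent.Results.MP_0b126a_co.AsymptoticHalfSquare
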